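import Pool.Agent.H45.Lib.S8.W223.PL.Stms
import Pool.Agent.H45.Lib.S8.W33.HZ.CLS
import Pool.Agent.H45.Lib.S8.W563.HZ.REL

set_option autoImplicit false

namespace Pool.Agent.Q288.PL

open Polynomial Pool.Agent.W223.HZ Pool.Agent.W223.PL Pool.Agent.W33.HZ

theorem clq_of (hR : StmtREL) (hP : StmtPAS) : StmtCLQ := by
  intro G k hGk hNS p m' hp hp3 hm' L Gm hL hGm hlt 𝒯 g hg hτL hgG hpg hpp
  classical
  rcases 𝒯.eq_empty_or_nonempty with rfl | ⟨τ₀, hτ₀⟩
  · simp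
  have hL0 : (0 : ℝ) < L := by linarith
  have hG0 : (0 : ℝ) < Gm := by linarith
  -- the matrix
  set Am : {τ // τ ∈ 𝒯} → (Fin m' ⊕ Fin m') → ℤ := fun τ =>
    Sum.elim (fun j : Fin m' => τ.1 ^ (j : ℕ)) (fun j : Fin m' => g τ.1 * τ.1 ^ (j : ℕ)) with hAm
  set vv : Fin m' ⊕ Fin m' → ℝ := Sum.elim (fun j : Fin m' => L ^ (j : ℕ))
    (fun j : Fin m' => Gm * L ^ (j : ℕ)) with hvv
  have hvpos : ∀ j, 0 < vv j := by
    rintro (j | j)
    · exact pow_pos hL0 _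
    · exact mul_pos hG0 (pow_pos hL0 _)
  have hent : ∀ τ j, |(Am τ j : ℝ)| ≤ vv j := by
    rintro ⟨τ, hτ⟩ (j | j)
    · show |((τ ^ (j : ℕ) : ℤ) : ℝ)| ≤ L ^ (j : ℕ)
      push_cast
      rw [abs_pow]
      exact pow_le_pow_left₀ (abs_nonneg _) (hτL τ hτ) _
    · show |((g τ * τ ^ (j : ℕ) : ℤ) : ℝ)| ≤ Gm * L ^ (j : ℕ)
      push_cast
      rw [abs_mul, abs_pow]
      exact mul_le_mul (hgG τ hτ) (pow_le_pow_left₀ (abs_nonneg _) (hτL τ hτ) _)
        (pow_nonneg (abs_nonneg _) _) hG0.le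
  have hprod : ∏ j, vv j = (Gm * L ^ (m' - 1)) ^ m' := by
    rw [Fintype.prod_sum_type]
    have h1 : ∏ j : Fin m', vv (Sum.inl j) = ∏ j : Fin m', L ^ (j : ℕ) := rfl
    have h2 : ∏ j : Fin m', vv (Sum.inr j) = Gm ^ m' * ∏ j : Fin m', L ^ (j : ℕ) := by
      show ∏ j : Fin m', Gm * L ^ (j : ℕ) = _
      rw [Finset.prod_mul_distrib, Finset.prod_const, Finset.card_univ, Fintype.card_fin]
    rw [h1, h2, mul_pow, ← Pool.Agent.W33.HZ.prod_pow]
    ring
  have hdet : ∀ f : (Fin m' ⊕ Fin m') → {τ // τ ∈ 𝒯},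
      Matrix.det (Matrix.of fun i j => Am (f i) j) = 0 := by
    intro f
    have h1 := hP p hp (by omega) G m' hm' (fun i => (f i).1) (fun i => g (f i).1)
      (fun i => hg _ (f i).2) (fun i => hpg _ (f i).2) (fun i j => (hpp _ (f i).2 _ (f j).2).1)
      (fun i j => (hpp _ (f i).2 _ (f j).2).2)
    have h2 : (Matrix.of fun i : Fin m' ⊕ Fin m' =>
        Sum.elim (fun j : Fin m' => (f i).1 ^ (j : ℕ)) (fun j : Fin m' => g (f i).1 *
          (f i).1 ^ (j : ℕ))) = Matrix.of fun i j => Am (f i) j := rfl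
    rw [h2] at h1
    refine Int.eq_zero_of_abs_lt_dvd h1 ?_
    have h3 := det_col_bound (Matrix.of fun i j => Am (f i) j) vv hvpos
      (fun i j => hent (f i) j)
    rw [hprod, Fintype.card_sum, Fintype.card_fin] at h3
    have h4 : (((m' + m').factorial : ℕ) : ℝ) ≤ ((2 * (m' : ℝ)) ^ 2) ^ m' := by
      have h5 : (m' + m').factorial ≤ (m' + m') ^ (m' + m') := Nat.factorial_le_pow _
      have h6 : (((m' + m').factorial : ℕ) : ℝ) ≤ (((m' + m') ^ (m' + m') : ℕ) : ℝ) := by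
        exact_mod_cast h5
      refine h6.trans (le_of_eq ?_)
      push_cast
      rw [← pow_mul, two_mul, two_mul]
    have h7 : |((Matrix.of fun i j => Am (f i) j).det : ℝ)| <
        (((p : ℤ) ^ (m' * (2 * m' - 1)) : ℤ) : ℝ) := by
      calc |((Matrix.of fun i j => Am (f i) j).det : ℝ)|
          ≤ (((m' + m').factorial : ℕ) : ℝ) * (Gm * L ^ (m' - 1)) ^ m' := h3
        _ ≤ ((2 * (m' : ℝ)) ^ 2) ^ m' * (Gm * L ^ (m' - 1)) ^ m' :=
            mul_le_mul_of_nonneg_right h4 (by positivity)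
        _ = ((2 * (m' : ℝ)) ^ 2 * Gm * L ^ (m' - 1)) ^ m' := by
            rw [← mul_pow, mul_assoc]
        _ < ((p : ℝ) ^ (2 * m' - 1)) ^ m' :=
            pow_lt_pow_left₀ hlt (by positivity) (by omega)
        _ = (((p : ℤ) ^ (m' * (2 * m' - 1)) : ℤ) : ℝ) := by
            push_cast
            rw [← pow_mul, Nat.mul_comm]
    exact_mod_cast h7
  -- the relation
  have hH1 : (1 : ℝ) ≤ Gm * L ^ m' := one_le_mul_of_one_le_of_one_le hGm (one_le_pow₀ hL)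
  obtain ⟨v, hv0, hvs, -⟩ := hR Am (Gm * L ^ m') hH1 ⟨⟨τ₀, hτ₀⟩⟩ (by
    intro τ j
    refine (hent τ j).trans ?_
    rcases j with j | j
    · show L ^ (j : ℕ) ≤ Gm * L ^ m'
      calc L ^ (j : ℕ) ≤ L ^ m' := pow_le_pow_right₀ hL j.2.le
        _ ≤ Gm * L ^ m' := le_mul_of_one_le_left (by positivity) hGm
    · show Gm * L ^ (j : ℕ) ≤ Gm * L ^ m'
      exact mul_le_mul_of_nonneg_left (pow_le_pow_right₀ hL j.2.le) hG0.le) hdet
  set P₁ : ℤ[X] := pl fun j : Fin m' => v (Sum.inl j) with hP₁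
  set P₂ : ℤ[X] := pl fun j : Fin m' => v (Sum.inr j) with hP₂
  have hP0 : P₁ ≠ 0 ∨ P₂ ≠ 0 := by
    by_contra hc
    push Not at hc
    apply hv0
    ext j
    rcases j with j | j
    · have := pl_coeff (fun j : Fin m' => v (Sum.inl j)) j
      rw [← hP₁, hc.1, coeff_zero] at this
      exact this.symm
    · have := pl_coeff (fun j : Fin m' => v (Sum.inr j)) j
      rw [← hP₂, hc.2, coeff_zero] at this
      exact this.symm
  have hW := hNS P₁ P₂ hP0
  have hroot : ∀ τ ∈ 𝒯, (P₁ ^ 2 - P₂ ^ 2 * G).eval τ = 0 := by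
    intro τ hτ
    have h1 := hvs ⟨τ, hτ⟩
    rw [Fintype.sum_sum_type] at h1
    have h2 : P₁.eval τ + g τ * P₂.eval τ = 0 := by
      rw [hP₁, hP₂, pl_eval, pl_eval, Finset.mul_sum, ← h1]
      congr 1
      · refine Finset.sum_congr rfl fun j _ => ?_
        show _ = τ ^ (j : ℕ) * v (Sum.inl j)
        ring
      · refine Finset.sum_congr rfl fun j _ => ?_
        show _ = g τ * τ ^ (j : ℕ) * v (Sum.inr j)
        ring
    rw [eval_sub, eval_mul, eval_pow, eval_pow, ← hg τ hτ]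
    have h3 : P₁.eval τ = -(g τ * P₂.eval τ) := by linarith
    rw [h3]
    ring
  have hdeg : (P₁ ^ 2 - P₂ ^ 2 * G).natDegree ≤ 2 * m' + k := by
    refine natDegree_sub_le_of_le ?_ ?_ |>.trans (max_le le_rfl le_rfl)
    · exact (natDegree_pow_le_of_le 2 (pl_natDegree _)).trans (by omega)
    · exact natDegree_mul_le_of_le (natDegree_pow_le_of_le 2 (pl_natDegree _)) hGk
  refine le_trans (card_le_degree_of_subset_roots ?_) hdeg
  intro τ hτ
  rw [mem_roots hW]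
  exact hroot τ hτ

theorem clq (hPAS : StmtPAS) : StmtCLQ := clq_of Pool.Agent.W563.HZ.REL.t hPAS

end Pool.Agent.Q288.PL
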