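import Pool.Agent.H45.Lib.S8.W223.PL.Stms
import Pool.Agent.H45.Lib.S8.W61.HZ.PAD

set_option autoImplicit false

namespace Pool.Agent.Q288.PL

open Polynomial Pool.Agent.W223.PL

/-- Hensel approximation of a square root by a polynomial. -/
theorem approx2 (p : ℕ) (hp : p.Prime) (hp2 : 2 < p) (G : ℤ[X]) {ι : Type} (τ g : ι → ℤ) (i0 : ι)
    (hg : ∀ i, g i ^ 2 = G.eval (τ i)) (hpg : ∀ i, ¬ (p : ℤ) ∣ g i)
    (hgg : ∀ i j, (p : ℤ) ∣ g i - g j) (k : ℕ) :
    ∃ c : ℤ[X], ∀ i, (p : ℤ) ^ (k + 1) ∣ c.eval (τ i) - g i := by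
  have hpp : Prime (p : ℤ) := Nat.prime_iff_prime_int.1 hp
  have h2 : ¬ (p : ℤ) ∣ 2 := by
    intro h
    have := Int.le_of_dvd (by norm_num) h
    omega
  have hu : ∃ u : ℤ, (p : ℤ) ∣ 1 - u * (2 * g i0) := by
    have hnd : ¬ (p : ℤ) ∣ 2 * g i0 := by
      intro h
      rcases hpp.dvd_or_dvd h with h | h
      · exact h2 h
      · exact hpg i0 h
    have hcop : IsCoprime (p : ℤ) (2 * g i0) := (Prime.coprime_iff_not_dvd hpp).2 hnd
    obtain ⟨a, b, hab⟩ := hcop
    exact ⟨b, ⟨a, by linarith⟩⟩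
  obtain ⟨u, hu⟩ := hu
  induction k with
  | zero =>
    refine ⟨C (g i0), fun i => ?_⟩
    rw [eval_C, zero_add, pow_one]
    exact hgg i0 i
  | succ k ih =>
    obtain ⟨c, hc⟩ := ih
    refine ⟨c - C u * (c ^ 2 - G), fun i => ?_⟩
    have h1 : (c - C u * (c ^ 2 - G)).eval (τ i) - g i =
        (c.eval (τ i) - g i) * (1 - u * (c.eval (τ i) + g i)) := by
      simp only [eval_sub, eval_mul, eval_C, eval_pow]
      rw [← hg i]
      ring
    rw [h1, pow_succ]
    apply mul_dvd_mul (hc i)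
    have hci : (p : ℤ) ∣ c.eval (τ i) - g i := (dvd_pow_self _ (Nat.succ_ne_zero k)).trans (hc i)
    obtain ⟨r, hr⟩ := hci
    obtain ⟨s, hs⟩ := hgg i i0
    obtain ⟨v, hv⟩ := hu
    have e1 : c.eval (τ i) = g i + p * r := by linarith
    have e2 : g i = g i0 + p * s := by linarith
    have e3 : (1 : ℤ) = u * (2 * g i0) + p * v := by linarith
    refine ⟨v - u * (r + 2 * s), ?_⟩
    rw [e1, e2]
    linear_combination e3

theorem pas : StmtPAS := by
  classical
  intro p hp hp2 G m hm τ g hg hpg hτ hgg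
  let i0 : Fin m ⊕ Fin m := Sum.inl ⟨0, by omega⟩
  obtain ⟨c, hc⟩ := approx2 p hp hp2 G τ g i0 hg hpg hgg (m * (2 * m - 1))
  let h : Fin m ⊕ Fin m → ℤ[X] := Sum.elim (fun j : Fin m => X ^ (j : ℕ))
    (fun j : Fin m => c * X ^ (j : ℕ))
  let e : Fin m ⊕ Fin m ≃ Fin (m + m) := finSumFinEquiv
  have h1 := Pool.Agent.W61.HZ.det_dvd (p : ℤ) (m + m) (fun i => τ (e.symm i))
    (fun i j => hτ _ _) (fun j => h (e.symm j))
  have h2 : Matrix.det (Matrix.of fun i j : Fin (m + m) => (h (e.symm j)).eval (τ (e.symm i))) =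
      Matrix.det (Matrix.of fun i j : Fin m ⊕ Fin m => (h j).eval (τ i)) := by
    rw [← Matrix.det_submatrix_equiv_self e.symm
      (Matrix.of fun i j : Fin m ⊕ Fin m => (h j).eval (τ i))]
    rfl
  have h3 : (m + m) * (m + m - 1) / 2 = m * (2 * m - 1) := by
    have : (m + m) * (m + m - 1) = 2 * (m * (2 * m - 1)) := by
      rw [show m + m = 2 * m by ring]
      ring
    rw [this]
    omega
  rw [h2, h3] at h1
  have hcast : ((Matrix.det (Matrix.of fun i : Fin m ⊕ Fin m =>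
      Sum.elim (fun j : Fin m => τ i ^ (j : ℕ)) (fun j : Fin m => g i * τ i ^ (j : ℕ))) : ℤ) :
        ZMod (p ^ (m * (2 * m - 1)))) =
      ((Matrix.det (Matrix.of fun i j : Fin m ⊕ Fin m => (h j).eval (τ i)) : ℤ) :
        ZMod (p ^ (m * (2 * m - 1)))) := by
    change (Int.castRingHom (ZMod (p ^ (m * (2 * m - 1))))) _ =
      (Int.castRingHom (ZMod (p ^ (m * (2 * m - 1))))) _
    rw [RingHom.map_det, RingHom.map_det]
    congr 1
    ext i j
    rcases j with j | j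
    · simp [h]
    · have h4 : ((c.eval (τ i) : ℤ) : ZMod (p ^ (m * (2 * m - 1)))) = (g i : ℤ) := by
        rw [ZMod.intCast_eq_intCast_iff_dvd_sub]
        have h5 := hc i
        rw [pow_succ] at h5
        have h6 : ((p ^ (m * (2 * m - 1)) : ℕ) : ℤ) ∣ c.eval (τ i) - g i := by
          push_cast
          exact (Dvd.intro _ rfl).trans h5
        rw [← neg_sub, dvd_neg]
        exact h6
      simp [h, h4]
  rw [ZMod.intCast_eq_intCast_iff_dvd_sub] at hcast
  push_cast at hcast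
  have h7 := dvd_sub h1 hcast
  simpa using h7

end Pool.Agent.Q288.PL
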